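import Pool.Agent.helper12.TY.Spec

set_option autoImplicit false

namespace Pool.Agent.TY

open Pool.Agent.helper58.DC Pool.Agent.DI Pool.Agent.GR Pool.Agent.OB Pool.Agent.TZ

section

variable {E : Type} [Group E]

theorem YCI_mem (α : MulAut E) (H : Subgroup E) (x : E) :
    x ∈ H.map α.toMonoidHom ↔ α⁻¹ x ∈ H := by
  rw [Subgroup.mem_map]
  constructor
  · rintro ⟨y, hy, rfl⟩
    have h : α⁻¹ (α.toMonoidHom y) = y := MulAut.inv_apply_self E α y
    rw [h]
    exact hy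
  · intro h
    exact ⟨α⁻¹ x, h, MulAut.apply_inv_self E α x⟩

theorem YCI_mapmap (α β : MulAut E) (H : Subgroup E) :
    (H.map β.toMonoidHom).map α.toMonoidHom = H.map (α * β).toMonoidHom := by
  rw [Subgroup.map_map]
  rfl

theorem YCI_mapone (H : Subgroup E) : H.map (1 : MulAut E).toMonoidHom = H :=
  Subgroup.map_id H

theorem YCI_inf (α : MulAut E) (H K : Subgroup E) :
    (H ⊓ K).map α.toMonoidHom = H.map α.toMonoidHom ⊓ K.map α.toMonoidHom := by
  ext x
  rw [Subgroup.mem_inf, YCI_mem, YCI_mem, YCI_mem, Subgroup.mem_inf]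

theorem YCI_cz (α : MulAut E) (Q : Subgroup E) :
    cz (Q.map α.toMonoidHom) = (cz Q).map α.toMonoidHom := by
  ext x
  rw [YCI_mem]
  unfold cz
  rw [Subgroup.mem_centralizer_iff, Subgroup.mem_centralizer_iff]
  constructor
  · intro h q hq
    have h1 := h (α q) ⟨q, hq, rfl⟩
    have h2 := congrArg (α⁻¹ : MulAut E) h1
    have h3 : α⁻¹ (α q) = q := MulAut.inv_apply_self E α q
    rw [map_mul, map_mul, h3] at h2
    exact h2
  · intro h y hy
    have hy' : y ∈ Q.map α.toMonoidHom := hy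
    rw [YCI_mem] at hy'
    have h1 := h (α⁻¹ y) hy'
    have h2 := congrArg α h1
    have h3 : α (α⁻¹ y) = y := MulAut.apply_inv_self E α y
    have h4 : α (α⁻¹ x) = x := MulAut.apply_inv_self E α x
    rw [map_mul, map_mul, h3, h4] at h2
    exact h2

theorem YCI_normal (u : E) (G' : Subgroup E) (hG : G'.Normal) :
    G'.map (MulAut.conj u).toMonoidHom = G' := by
  ext x
  rw [YCI_mem]
  have h : (MulAut.conj u)⁻¹ x = u⁻¹ * x * u := by
    rw [← map_inv, MulAut.conj_apply, inv_inv]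
  rw [h]
  constructor
  · intro h1
    have h2 := hG.conj_mem _ h1 u
    have h3 : u * (u⁻¹ * x * u) * u⁻¹ = x := by group
    rw [h3] at h2
    exact h2
  · intro h1
    have h2 := hG.conj_mem _ h1 u⁻¹
    rw [inv_inv] at h2
    exact h2

theorem YCI_conj (u g x : E) : x ∈ conjugatesOf ((MulAut.conj u)⁻¹ g) ↔ x ∈ conjugatesOf g := by
  change IsConj _ x ↔ IsConj g x
  have h : IsConj g ((MulAut.conj u)⁻¹ g) := by
    rw [isConj_iff]
    refine ⟨u⁻¹, ?_⟩
    rw [← map_inv, MulAut.conj_apply]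
  constructor
  · intro h1
    exact h.trans h1
  · intro h1
    exact h.symm.trans h1

theorem YCI_omega (u : E) (ψ : E → ℂ) (g : E) :
    omega (funMap (MulAut.conj u) ψ) g = omega ψ g := by
  rw [Pool.Agent.BQ.omega_funMap]
  unfold omega
  congr 1
  refine finsum_congr fun x => ?_
  classical
  by_cases hx : x ∈ conjugatesOf g
  · have hx' := (YCI_conj u g x).2 hx
    rw [finsum_eq_if, finsum_eq_if, if_pos hx, if_pos hx']
  · have hx' := fun h => hx ((YCI_conj u g x).1 h)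
    rw [finsum_eq_if, finsum_eq_if, if_neg hx, if_neg hx']

theorem YCI_cov (M : Ideal (integralClosure ℤ ℂ)) (G' : Subgroup E) (τ φ : E → ℂ) (u : E)
    (h : Cov M G' τ φ) : Cov M G' τ (funMap (MulAut.conj u) φ) := by
  intro g hg
  rw [YCI_omega]
  exact h g hg

theorem YCI_card (α : MulAut E) (N : Subgroup E) :
    Nat.card (N.map α.toMonoidHom : Subgroup E) = Nat.card N :=
  Nat.card_congr (N.equivMapOfInjective α.toMonoidHom α.injective).toEquiv.symm

theorem YCI_def (p : ℕ) (α : MulAut E) (N : Subgroup E) (φ : E → ℂ) (d : ℤ)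
    (h : Defect p N φ d) : Defect p (N.map α.toMonoidHom) (funMap α φ) d := by
  obtain ⟨n, h1, h2⟩ := h
  refine ⟨n, ?_, ?_⟩
  · rw [← h1]
    change φ (α⁻¹ 1) = φ 1
    rw [map_one]
  · rw [YCI_card]
    exact h2

theorem YCI_funfun (α : MulAut E) (φ : E → ℂ) : funMap α⁻¹ (funMap α φ) = φ := by
  funext g
  change φ (α⁻¹ ((α⁻¹)⁻¹ g)) = φ g
  rw [inv_inv, MulAut.inv_apply_self]

theorem YCI_back (α : MulAut E) (N : Subgroup E) :
    (N.map α.toMonoidHom).map (α⁻¹ : MulAut E).toMonoidHom = N := by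
  rw [YCI_mapmap, inv_mul_cancel, YCI_mapone]

variable [Finite E]

/-- The set counted in `gfun`. -/
def YCI_S (p : ℕ) (M : Ideal (integralClosure ℤ ℂ)) (G' : Subgroup E) (τ : E → ℂ) (d : ℤ)
    (N : Subgroup E) : Set (E → ℂ) :=
  {φ | φ ∈ IrrOn N ∧ Defect p N φ d ∧ Cov M G' τ φ}

theorem YCI_S_map (hIF : IF_stmt) (p : ℕ) (M : Ideal (integralClosure ℤ ℂ)) (G' : Subgroup E)
    (τ : E → ℂ) (d : ℤ) (N : Subgroup E) (u : E) (φ : E → ℂ)
    (h : φ ∈ YCI_S p M G' τ d N) :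
    funMap (MulAut.conj u) φ ∈ YCI_S p M G' τ d (N.map (MulAut.conj u).toMonoidHom) := by
  obtain ⟨h1, h2, h3⟩ := h
  exact ⟨((hIF E N).2 φ h1).2.2 _, YCI_def p _ N φ d h2, YCI_cov M G' τ φ u h3⟩

theorem YCI_gfun (hIF : IF_stmt) (p : ℕ) (M : Ideal (integralClosure ℤ ℂ)) (G' : Subgroup E)
    (τ : E → ℂ) (d : ℤ) (N : Subgroup E) (u : E) :
    gfun p M G' τ d (N.map (MulAut.conj u).toMonoidHom) = gfun p M G' τ d N := by
  unfold gfun
  rw [YCI_card]
  congr 2
  have hinv : (MulAut.conj u)⁻¹ = MulAut.conj u⁻¹ := (map_inv MulAut.conj u).symm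
  refine Nat.card_congr
    ⟨fun φ => ⟨funMap (MulAut.conj u)⁻¹ φ.1, ?_⟩, fun φ => ⟨funMap (MulAut.conj u) φ.1, ?_⟩,
      ?_, ?_⟩
  · have h := YCI_S_map hIF p M G' τ d _ u⁻¹ φ.1 φ.2
    rw [← hinv, YCI_back] at h
    exact h
  · exact YCI_S_map hIF p M G' τ d N u φ.1 φ.2
  · intro φ
    apply Subtype.ext
    have h := YCI_funfun (MulAut.conj u)⁻¹ φ.1
    rw [inv_inv] at h
    exact h
  · intro φ
    apply Subtype.ext
    exact YCI_funfun (MulAut.conj u) φ.1

theorem YCI_chain_mem (α : MulAut E) (C : Finset (Subgroup E)) (P : Subgroup E) :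
    P ∈ chainMap α C ↔ ∃ Q ∈ C, Q.map α.toMonoidHom = P := by
  classical
  unfold chainMap
  rw [Finset.mem_image]

theorem YCI_PCh (p : ℕ) (α : MulAut E) (L P : Subgroup E) (C : Finset (Subgroup E))
    (h : PCh p L P C) :
    PCh p (L.map α.toMonoidHom) (P.map α.toMonoidHom) (chainMap α C) := by
  refine ⟨?_, ?_, ?_, ?_, ?_⟩
  · intro A hA B hB hAB
    have hA' := (YCI_chain_mem α C A).1 hA
    have hB' := (YCI_chain_mem α C B).1 hB
    obtain ⟨A0, hA0, rfl⟩ := hA'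
    obtain ⟨B0, hB0, rfl⟩ := hB'
    have hne : A0 ≠ B0 := fun he => hAB (by rw [he])
    rcases h.chain hA0 hB0 hne with h1 | h1
    · exact Or.inl (Subgroup.map_mono h1)
    · exact Or.inr (Subgroup.map_mono h1)
  · exact (YCI_chain_mem α C _).2 ⟨P, h.mem, rfl⟩
  · intro Q hQ
    obtain ⟨Q0, hQ0, rfl⟩ := (YCI_chain_mem α C Q).1 hQ
    exact Subgroup.map_mono (h.bot Q0 hQ0)
  · intro Q hQ
    obtain ⟨Q0, hQ0, rfl⟩ := (YCI_chain_mem α C Q).1 hQ
    exact Subgroup.map_mono (h.le Q0 hQ0)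
  · intro Q hQ
    obtain ⟨Q0, hQ0, rfl⟩ := (YCI_chain_mem α C Q).1 hQ
    exact (h.pg Q0 hQ0).map _

theorem YCI_cSum (hNM : NM_stmt) (p : ℕ) (α : MulAut E) (L P M' : Subgroup E)
    (g : Subgroup E → ℤ) (hg : ∀ N : Subgroup E, g (N.map α.toMonoidHom) = g N) :
    cSum p (L.map α.toMonoidHom) (P.map α.toMonoidHom) (M'.map α.toMonoidHom) g =
      cSum p L P M' g := by
  have hinv : ∀ (β : MulAut E) (C : Finset (Subgroup E)), chainMap β⁻¹ (chainMap β C) = C := by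
    intro β C
    rw [← (hNM E β⁻¹ C).2.2.2.2.1 β, inv_mul_cancel, (hNM E β C).2.2.2.2.2.1]
  have hinv' : ∀ (C : Finset (Subgroup E)), chainMap α (chainMap α⁻¹ C) = C := by
    intro C
    have h := hinv α⁻¹ C
    rw [inv_inv] at h
    exact h
  let e : Finset (Subgroup E) ≃ Finset (Subgroup E) :=
    ⟨chainMap α, chainMap α⁻¹, hinv α, hinv'⟩
  unfold cSum
  rw [← finsum_comp_equiv e]
  refine finsum_congr fun C => ?_
  have h1 : e C ∈ {C : Finset (Subgroup E) | PCh p (L.map α.toMonoidHom) (P.map α.toMonoidHom) C} ↔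
      C ∈ {C : Finset (Subgroup E) | PCh p L P C} := by
    constructor
    · intro h
      have h2 := YCI_PCh p α⁻¹ _ _ _ h
      rw [YCI_back, YCI_back] at h2
      have h3 : chainMap α⁻¹ (e C) = C := hinv α C
      rw [h3] at h2
      exact h2
    · intro h
      exact YCI_PCh p α L P C h
  have h2 : (-1 : ℤ) ^ ((e C).card + 1) * g (M'.map α.toMonoidHom ⊓ nrm (e C)) =
      (-1) ^ (C.card + 1) * g (M' ⊓ nrm C) := by
    have h3 : (e C).card = C.card := (hNM E α C).2.2.1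
    have h4 : nrm (e C) = (nrm C).map α.toMonoidHom := (hNM E α C).2.2.2.1
    rw [h3, h4, ← YCI_inf, hg]
  classical
  rw [finsum_eq_if, finsum_eq_if, h2]
  by_cases h5 : C ∈ {C : Finset (Subgroup E) | PCh p L P C}
  · rw [if_pos (h1.2 h5), if_pos h5]
  · rw [if_neg (fun h => h5 (h1.1 h)), if_neg h5]

end

theorem YCI (hNM : NM_stmt) (hIF : IF_stmt) : YCI_stmt := by
  intro p _ M E _ _ G' hG τ u Q
  unfold TQ
  refine finsum_congr fun d => ?_
  rw [YCI_cz]
  have h1 : G' ⊓ (cz Q).map (MulAut.conj u).toMonoidHom =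
      (G' ⊓ cz Q).map (MulAut.conj u).toMonoidHom := by
    rw [YCI_inf, YCI_normal u G' hG]
  have h2 : (⊥ : Subgroup E) = (⊥ : Subgroup E).map (MulAut.conj u).toMonoidHom :=
    (Subgroup.map_bot _).symm
  rw [h1]
  have h3 := YCI_cSum hNM p (MulAut.conj u) (G' ⊓ cz Q) ⊥ (cz Q) (gfun p M G' τ d)
    (fun N => YCI_gfun hIF p M G' τ d N u)
  rw [← h2] at h3
  exact h3

end Pool.Agent.TY
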